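import Mathlib

/-!
Definitions for functors on compacta (normal, finitary, finite degree, skeletal, open,
finitely bicommutative).
-/

set_option autoImplicit false

universe u

open CategoryTheory CategoryTheory.Limits Set TopologicalSpace Topology

namespace Pool.Agent.P.MP_92e33a_gt

/-- A map is skeletal if preimages of nowhere dense sets are nowhere dense. -/
def IsSkeletalMap {X Y : Type u} [TopologicalSpace X] [TopologicalSpace Y] (f : X → Y) : Prop :=
  ∀ A : Set Y, IsNowhereDense A → IsNowhereDense (f ⁻¹' A)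

/-- The weight of a space: the least cardinality of a base of its topology. -/
noncomputable def weight (X : Type u) [TopologicalSpace X] : Cardinal.{u} :=
  sInf {c : Cardinal.{u} | ∃ B : Set (Set X), IsTopologicalBasis B ∧ Cardinal.mk B = c}

/-- A closed subset of a compactum, as a compactum. -/
def sub {X : CompHaus.{u}} (Z : Closeds X) : CompHaus.{u} :=
  haveI : CompactSpace (Z : Set X) := isCompact_iff_compactSpace.1 Z.isClosed.isCompact
  CompHaus.of (Z : Set X)

/-- The inclusion map of a closed subset `Z` into `X`. -/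
def incl {X : CompHaus.{u}} (Z : Closeds X) : sub Z ⟶ X :=
  haveI : CompactSpace (Z : Set X) := isCompact_iff_compactSpace.1 Z.isClosed.isCompact
  CompHausLike.ofHom _ ⟨Subtype.val, continuous_subtype_val⟩

/-- `F Z` viewed as a subset of `F X`: the image of `F` of the inclusion map. -/
def part (F : CompHaus.{u} ⥤ CompHaus.{u}) {X : CompHaus.{u}} (Z : Closeds X) :
    Set (F.obj X) :=
  range (F.map (incl Z))

/-- Normal functors in the sense of Shchepin. -/
structure IsNormal (F : CompHaus.{u} ⥤ CompHaus.{u}) : Prop where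
  monomorphic : ∀ (X Y : CompHaus.{u}) (f : X ⟶ Y), Function.Injective f → Function.Injective (F.map f)
  epimorphic : ∀ (X Y : CompHaus.{u}) (f : X ⟶ Y), Function.Surjective f → Function.Surjective (F.map f)
  continuous : PreservesCofilteredLimits F
  intersections : ∀ (X : CompHaus.{u}) (S : Set (Closeds X)),
    part F (sInf S) = ⋂ Z ∈ S, part F Z
  empty : ∀ X : CompHaus.{u}, IsEmpty X → IsEmpty (F.obj X)
  point : ∀ X : CompHaus.{u}, Nat.card X = 1 → Nat.card (F.obj X) = 1
  weight_eq : ∀ X : CompHaus.{u}, Infinite X → weight (F.obj X) = weight X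
  preimages : ∀ (X Y : CompHaus.{u}) (f : X ⟶ Y) (Z : Closeds Y),
    F.map f ⁻¹' part F Z = part F (Z.preimage f.hom.hom.continuous)

/-- `F` sends finite compacta (these are discrete) to finite compacta. -/
def IsFinitary (F : CompHaus.{u} ⥤ CompHaus.{u}) : Prop :=
  ∀ X : CompHaus.{u}, Finite X → Finite (F.obj X)

/-- The set `F_n(X)`: the union of the images of `F ξ` over all maps `ξ` from the `n`-point
discrete space to `X`. -/
def degPart (F : CompHaus.{u} ⥤ CompHaus.{u}) (n : ℕ) (X : CompHaus.{u}) : Set (F.obj X) :=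
  ⋃ ξ : CompHaus.of (ULift.{u} (Fin n)) ⟶ X, range (F.map ξ)

/-- `F` has finite degree: `F_n(X) = F X` for some `n` and all `X`. -/
def HasFiniteDegree (F : CompHaus.{u} ⥤ CompHaus.{u}) : Prop :=
  ∃ n : ℕ, ∀ X : CompHaus.{u}, degPart F n X = univ

/-- `F f` is skeletal for every open surjection `f`. -/
def IsSkeletalFunctor (F : CompHaus.{u} ⥤ CompHaus.{u}) : Prop :=
  ∀ (X Y : CompHaus.{u}) (f : X ⟶ Y), IsOpenMap f → Function.Surjective f → IsSkeletalMap (F.map f)

/-- `F f` is open for every open surjection `f`. -/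
def IsOpenFunctor (F : CompHaus.{u} ⥤ CompHaus.{u}) : Prop :=
  ∀ (X Y : CompHaus.{u}) (f : X ⟶ Y), IsOpenMap f → Function.Surjective f → IsOpenMap (F.map f)

/-- A commutative square `pY ∘ g = f ∘ pX` is bicommutative. -/
def IsBicommutative {X' Y' X Y : CompHaus.{u}} (g : X' ⟶ Y') (pX : X' ⟶ X) (pY : Y' ⟶ Y)
    (f : X ⟶ Y) : Prop :=
  g ≫ pY = pX ≫ f ∧ ∀ x : X, g '' (pX ⁻¹' {x}) = pY ⁻¹' {f x}

/-- `F` preserves bicommutative squares of surjections between finite compacta. -/
def IsFinitelyBicommutative (F : CompHaus.{u} ⥤ CompHaus.{u}) : Prop :=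
  ∀ (X' Y' X Y : CompHaus.{u}) (g : X' ⟶ Y') (pX : X' ⟶ X) (pY : Y' ⟶ Y) (f : X ⟶ Y),
    Finite X' → Finite Y' → Finite X → Finite Y →
    Function.Surjective g → Function.Surjective pX → Function.Surjective pY → Function.Surjective f →
    IsBicommutative g pX pY f → IsBicommutative (F.map g) (F.map pX) (F.map pY) (F.map f)

end Pool.Agent.P.MP_92e33a_gt
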