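import Pool.Agent.P.MP_92e33a_gt.Defs

/-!
The functor `F X = {(x, y, z) ∈ X × X × X | x = y ∨ x = z}` (two copies of the square of `X`
glued along the diagonal) is normal, finitary, of finite degree, skeletal and not open.
-/

set_option autoImplicit false

universe u

open CategoryTheory CategoryTheory.Limits Set TopologicalSpace Topology

namespace Pool.Agent.P.MP_92e33a_gt

/-! The example. -/

/-- The carrier of the example. -/
abbrev T (X : Type u) : Type u := {p : X × X × X // p.1 = p.2.1 ∨ p.1 = p.2.2}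

theorem isClosed_T (X : Type u) [TopologicalSpace X] [T2Space X] :
    IsClosed {p : X × X × X | p.1 = p.2.1 ∨ p.1 = p.2.2} :=
  (isClosed_eq continuous_fst (continuous_fst.comp continuous_snd)).union
    (isClosed_eq continuous_fst (continuous_snd.comp continuous_snd))

instance instCompactT (X : Type u) [TopologicalSpace X] [T2Space X] [CompactSpace X] :
    CompactSpace (T X) :=
  isCompact_iff_compactSpace.1 (isClosed_T X).isCompact

/-- The action of the example on maps. -/
def tmap {X Y : Type u} (f : X → Y) (p : T X) : T Y :=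
  ⟨(f p.1.1, f p.1.2.1, f p.1.2.2), p.2.imp (congrArg f) (congrArg f)⟩

theorem continuous_tmap {X Y : Type u} [TopologicalSpace X] [TopologicalSpace Y] {f : X → Y}
    (hf : Continuous f) : Continuous (tmap f) := by
  unfold tmap
  refine Continuous.subtype_mk ?_ _
  fun_prop

/-- The example. -/
def G : CompHaus.{u} ⥤ CompHaus.{u} where
  obj X := CompHaus.of (T X)
  map f := CompHausLike.ofHom _ ⟨tmap f, continuous_tmap f.hom.hom.continuous⟩
  map_id _ := rfl
  map_comp _ _ := rfl

theorem G_map {X Y : CompHaus.{u}} (f : X ⟶ Y) : (G.map f : G.obj X → G.obj Y) = tmap f := rfl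

theorem mem_range_tmap {X Y : Type u} {f : X → Y} (p : T Y) :
    p ∈ range (tmap f) ↔ p.1.1 ∈ range f ∧ p.1.2.1 ∈ range f ∧ p.1.2.2 ∈ range f := by
  constructor
  · rintro ⟨q, rfl⟩
    exact ⟨⟨_, rfl⟩, ⟨_, rfl⟩, ⟨_, rfl⟩⟩
  · obtain ⟨⟨x, y, z⟩, h⟩ := p
    rintro ⟨⟨a, ha⟩, ⟨b, hb⟩, ⟨c, hc⟩⟩
    dsimp only at ha hb hc h
    rcases h with h | h
    · subst h
      exact ⟨⟨(a, a, c), Or.inl rfl⟩, Subtype.ext (by simp [tmap, ha, hc])⟩
    · subst h
      exact ⟨⟨(a, b, a), Or.inr rfl⟩, Subtype.ext (by simp [tmap, ha, hb])⟩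

theorem mem_part {X : CompHaus.{u}} (Z : Closeds X) (p : T X) :
    p ∈ part G Z ↔ p.1.1 ∈ Z ∧ p.1.2.1 ∈ Z ∧ p.1.2.2 ∈ Z := by
  have h : range (incl Z : sub Z → X) = (Z : Set X) := Subtype.range_coe
  have := mem_range_tmap (f := (incl Z : sub Z → X)) p
  rw [h] at this
  exact this

theorem weight_spec (X : Type u) [TopologicalSpace X] :
    ∃ B : Set (Set X), IsTopologicalBasis B ∧ Cardinal.mk B = weight X :=
  csInf_mem (s := {c : Cardinal.{u} | ∃ B : Set (Set X), IsTopologicalBasis B ∧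
    Cardinal.mk B = c}) ⟨_, _, isTopologicalBasis_opens, rfl⟩

theorem weight_le {X : Type u} [TopologicalSpace X] {B : Set (Set X)}
    (hB : IsTopologicalBasis B) : weight X ≤ Cardinal.mk B :=
  csInf_le' ⟨B, hB, rfl⟩

theorem weight_le_of_isInducing {X Y : Type u} [TopologicalSpace X] [TopologicalSpace Y]
    {f : X → Y} (hf : IsInducing f) : weight X ≤ weight Y := by
  obtain ⟨B, hB, h⟩ := weight_spec Y
  rw [← h]
  exact (weight_le (hB.isInducing hf)).trans Cardinal.mk_image_le

theorem weight_prod_le (X Y : Type u) [TopologicalSpace X] [TopologicalSpace Y] :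
    weight (X × Y) ≤ weight X * weight Y := by
  obtain ⟨B, hB, h⟩ := weight_spec X
  obtain ⟨C, hC, h'⟩ := weight_spec Y
  rw [← h, ← h']
  exact (weight_le (hB.prod hC)).trans (Cardinal.mk_image2_le)

theorem aleph0_le_weight (X : Type u) [TopologicalSpace X] [T1Space X] [Infinite X] :
    Cardinal.aleph0 ≤ weight X := by
  obtain ⟨B, hB, h⟩ := weight_spec X
  rw [← h, Cardinal.aleph0_le_mk_iff]
  by_contra hfin
  rw [not_infinite_iff_finite] at hfin
  have hinj : Function.Injective (fun x : X => {b : B | x ∈ b.1}) := by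
    intro x y hxy
    by_contra hne
    obtain ⟨v, hv, hxv, hsub⟩ :=
      hB.exists_subset_of_mem_open (a := x) (u := {y}ᶜ) hne isOpen_compl_singleton
    have : (⟨v, hv⟩ : B) ∈ {b : B | y ∈ b.1} := by
      have h2 : (⟨v, hv⟩ : B) ∈ {b : B | x ∈ b.1} := hxv
      simpa only [hxy] using h2
    exact hsub this rfl
  have : Finite X := Finite.of_injective _ hinj
  exact _root_.not_finite X

theorem weight_T (X : Type u) [TopologicalSpace X] [T1Space X] [Infinite X] :
    weight (T X) = weight X := by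
  have h0 := aleph0_le_weight X
  apply le_antisymm
  · calc weight (T X) ≤ weight (X × X × X) := weight_le_of_isInducing IsInducing.subtypeVal
      _ ≤ weight X * weight (X × X) := weight_prod_le _ _
      _ ≤ weight X * (weight X * weight X) := by gcongr; exact weight_prod_le _ _
      _ = weight X := by rw [Cardinal.mul_eq_self h0, Cardinal.mul_eq_self h0]
  · refine weight_le_of_isInducing (f := fun x : X => (⟨(x, x, x), Or.inl rfl⟩ : T X)) ?_
    refine IsInducing.of_comp (g := fun p : T X => p.1.1) ?_ ?_ IsInducing.id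
    · refine Continuous.subtype_mk ?_ _
      fun_prop
    · fun_prop

theorem continuous_G : PreservesCofilteredLimits G.{u} := by
  refine ⟨fun J _ _ => ⟨fun {K} => ⟨fun {c} hc => ⟨?_⟩⟩⟩⟩
  refine isLimitOfReflects (forget CompHaus) (Classical.choice ((Types.isLimit_iff _).2 ?_))
  have hc' := (Types.isLimit_iff _).1 ⟨isLimitOfPreserves (forget CompHaus) hc⟩
  intro s hs
  have hsec : ∀ {i j : J} (f : i ⟶ j), tmap (K.map f) (s i) = s j := fun f => hs f
  obtain ⟨x, hx, hxu⟩ := hc' (fun j => (s j : T (K.obj j)).1.1)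
    (fun f => congrArg (fun p : T _ => p.1.1) (hsec f))
  obtain ⟨y, hy, hyu⟩ := hc' (fun j => (s j : T (K.obj j)).1.2.1)
    (fun f => congrArg (fun p : T _ => p.1.2.1) (hsec f))
  obtain ⟨z, hz, hzu⟩ := hc' (fun j => (s j : T (K.obj j)).1.2.2)
    (fun f => congrArg (fun p : T _ => p.1.2.2) (hsec f))
  have hxyz : x = y ∨ x = z := by
    by_contra hne
    rw [not_or] at hne
    have h1 : ∃ j, (s j : T (K.obj j)).1.1 ≠ (s j : T (K.obj j)).1.2.1 := by
      by_contra h
      push Not at h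
      exact hne.1 (hyu x fun j => (hx j).trans (h j))
    have h2 : ∃ j, (s j : T (K.obj j)).1.1 ≠ (s j : T (K.obj j)).1.2.2 := by
      by_contra h
      push Not at h
      exact hne.2 (hzu x fun j => (hx j).trans (h j))
    obtain ⟨i, hi⟩ := h1
    obtain ⟨j, hj⟩ := h2
    rcases (s (IsCofiltered.min i j) : T _).2 with h | h
    · apply hi
      rw [← hsec (IsCofiltered.minToLeft i j)]
      exact congrArg (K.map (IsCofiltered.minToLeft i j)) h
    · apply hj
      rw [← hsec (IsCofiltered.minToRight i j)]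
      exact congrArg (K.map (IsCofiltered.minToRight i j)) h
  refine ⟨(⟨(x, y, z), hxyz⟩ : T c.pt), fun j => ?_, fun p hp => ?_⟩
  · exact Subtype.ext (Prod.ext (hx j) (Prod.ext (hy j) (hz j)))
  · refine Subtype.ext (Prod.ext (hxu _ fun j => ?_) (Prod.ext (hyu _ fun j => ?_)
      (hzu _ fun j => ?_)))
    · exact congrArg (fun p : T _ => p.1.1) (hp j)
    · exact congrArg (fun p : T _ => p.1.2.1) (hp j)
    · exact congrArg (fun p : T _ => p.1.2.2) (hp j)

theorem isNormal_G : IsNormal G.{u} where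
  monomorphic X Y f hf p q h := by
    have h' : tmap f p = tmap f q := h
    refine Subtype.ext (Prod.ext (hf ?_) (Prod.ext (hf ?_) (hf ?_)))
    · exact congrArg (fun p : T _ => p.1.1) h'
    · exact congrArg (fun p : T _ => p.1.2.1) h'
    · exact congrArg (fun p : T _ => p.1.2.2) h'
  epimorphic X Y f hf p := (mem_range_tmap (f := f) p).2 ⟨hf _, hf _, hf _⟩
  continuous := continuous_G
  intersections X S := by
    ext p
    simp only [mem_iInter]
    refine (mem_part (sInf S) p).trans ?_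
    simp only [Closeds.mem_sInf]
    exact ⟨fun h Z hZ => (mem_part Z p).2 ⟨h.1 Z hZ, h.2.1 Z hZ, h.2.2 Z hZ⟩,
      fun h => ⟨fun Z hZ => ((mem_part Z p).1 (h Z hZ)).1,
        fun Z hZ => ((mem_part Z p).1 (h Z hZ)).2.1,
        fun Z hZ => ((mem_part Z p).1 (h Z hZ)).2.2⟩⟩
  empty X hX := ⟨fun p : T X => hX.elim p.1.1⟩
  point X hX := by
    rw [Nat.card_eq_one_iff_unique] at hX ⊢
    obtain ⟨h1, ⟨x⟩⟩ := hX
    exact ⟨inferInstanceAs (Subsingleton (T X)), ⟨(⟨(x, x, x), Or.inl rfl⟩ : T X)⟩⟩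
  weight_eq X hX := @weight_T X _ (@T2Space.t1Space _ _ X.is_hausdorff) hX
  preimages X Y f Z := by
    ext p
    exact (mem_part Z (tmap f p)).trans (mem_part (Z.preimage f.hom.hom.continuous) p).symm

theorem isFinitary_G : IsFinitary G.{u} := fun X _ => inferInstanceAs (Finite (T X))

theorem hasFiniteDegree_G : HasFiniteDegree G.{u} := by
  refine ⟨2, fun X => eq_univ_of_forall fun p => ?_⟩
  let q : T X := p
  let ξ : CompHaus.of (ULift.{u} (Fin 2)) ⟶ X :=
    CompHausLike.ofHom _ ⟨fun i => ![q.1.2.1, q.1.2.2] i.down, continuous_of_discreteTopology⟩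
  refine mem_iUnion.2 ⟨ξ, (mem_range_tmap (f := ξ) q).2 ⟨?_, ⟨⟨0⟩, rfl⟩, ⟨⟨1⟩, rfl⟩⟩⟩
  rcases q.2 with h | h
  · exact ⟨⟨0⟩, h.symm⟩
  · exact ⟨⟨1⟩, h.symm⟩

theorem isSkeletalMap_iff {X Y : Type u} [TopologicalSpace X] [TopologicalSpace Y] {f : X → Y}
    (hf : Continuous f) : IsSkeletalMap f ↔
      ∀ U : Set X, IsOpen U → U.Nonempty → (interior (closure (f '' U))).Nonempty := by
  constructor
  · intro h U hU hne
    by_contra h0
    have h1 : IsNowhereDense (f '' U) := not_nonempty_iff_eq_empty.1 h0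
    have h2 : interior (closure (f ⁻¹' (f '' U))) = ∅ := h _ h1
    have h3 : U ⊆ interior (closure (f ⁻¹' (f '' U))) :=
      interior_maximal ((subset_preimage_image f U).trans subset_closure) hU
    rw [h2] at h3
    exact hne.ne_empty (subset_empty_iff.1 h3)
  · intro h A hA
    by_contra h0
    have h1 := h _ isOpen_interior (nonempty_iff_ne_empty.2 h0)
    have h2 : f '' interior (closure (f ⁻¹' A)) ⊆ closure A :=
      (image_mono interior_subset).trans
        ((image_closure_subset_closure_image hf).trans (closure_mono (image_preimage_subset f A)))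
    have h3 : interior (closure (f '' interior (closure (f ⁻¹' A)))) ⊆ interior (closure A) :=
      interior_mono (closure_minimal h2 isClosed_closure)
    have h4 : interior (closure A) = ∅ := hA
    rw [h4] at h3
    exact h1.ne_empty (subset_empty_iff.1 h3)

theorem isSkeletalMap_of_isOpenMap {X Y : Type u} [TopologicalSpace X] [TopologicalSpace Y]
    {f : X → Y} (hf : Continuous f) (ho : IsOpenMap f) : IsSkeletalMap f :=
  (isSkeletalMap_iff hf).2 fun U hU hne =>
    (hne.image f).mono (interior_maximal subset_closure (ho U hU))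

/-- The key step, for an abstract copy `e` of the square inside the example. -/
theorem key {X Y : Type u} [TopologicalSpace X] [TopologicalSpace Y] [T2Space Y] {f : X → Y}
    (hf : Continuous f) (hs : IsSkeletalMap f)
    (eX : X × X → T X) (eY : Y × Y → T Y) (heX : Continuous eX) (heY : Continuous eY)
    (hcomm : ∀ a b, tmap f (eX (a, b)) = eY (f a, f b))
    (hopen : ∀ V W : Set Y, IsOpen V → IsOpen W → Disjoint V W → IsOpen (eY '' V ×ˢ W))
    (hdiag : ∀ y, (eY (y, y)).1 = (y, y, y))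
    (U : Set (T X)) (hU : IsOpen U) (x z : X) (hp : eX (x, z) ∈ U) :
    (interior (closure (tmap f '' U))).Nonempty := by
  obtain ⟨W₁, W₂, h1, h2, hx, hz, hsub⟩ := isOpen_prod_iff.1 (hU.preimage heX) x z hp
  obtain ⟨y₁, hy₁⟩ := (isSkeletalMap_iff hf).1 hs W₁ h1 ⟨x, hx⟩
  obtain ⟨y₂, hy₂⟩ := (isSkeletalMap_iff hf).1 hs W₂ h2 ⟨z, hz⟩
  have hcl : eY '' (closure (f '' W₁) ×ˢ closure (f '' W₂)) ⊆ closure (tmap f '' U) := by
    rw [← closure_prod_eq]
    refine (image_closure_subset_closure_image heY).trans (closure_mono ?_)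
    rintro _ ⟨⟨_, _⟩, ⟨⟨a, ha, rfl⟩, ⟨b, hb, rfl⟩⟩, rfl⟩
    exact ⟨eX (a, b), hsub (mk_mem_prod ha hb), hcomm a b⟩
  by_cases hne : ∃ a ∈ interior (closure (f '' W₁)), ∃ b ∈ interior (closure (f '' W₂)), a ≠ b
  · obtain ⟨a, ha, b, hb, hab⟩ := hne
    obtain ⟨V, W, hV, hW, haV, hbW, hd⟩ := t2_separation hab
    have hO := hopen (V ∩ interior (closure (f '' W₁))) (W ∩ interior (closure (f '' W₂)))
      (hV.inter isOpen_interior) (hW.inter isOpen_interior)
      (hd.mono inter_subset_left inter_subset_left)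
    refine ⟨eY (a, b), interior_maximal ?_ hO ⟨(a, b), ⟨⟨haV, ha⟩, ⟨hbW, hb⟩⟩, rfl⟩⟩
    refine (image_mono (Set.prod_mono ?_ ?_)).trans hcl
    · exact inter_subset_right.trans interior_subset
    · exact inter_subset_right.trans interior_subset
  · push Not at hne
    have hy : y₁ = y₂ := hne _ hy₁ _ hy₂
    subst hy
    have hsing : interior (closure (f '' W₁)) = {y₁} :=
      eq_singleton_iff_unique_mem.2 ⟨hy₁, fun a ha => hne a ha _ hy₂⟩
    have hiso : IsOpen ({y₁} : Set Y) := hsing ▸ isOpen_interior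
    have hO : IsOpen ({eY (y₁, y₁)} : Set (T Y)) := by
      have : ({eY (y₁, y₁)} : Set (T Y)) =
          Subtype.val ⁻¹' (({y₁} : Set Y) ×ˢ ({y₁} : Set Y) ×ˢ ({y₁} : Set Y)) := by
        ext p
        simp only [mem_singleton_iff, mem_preimage, singleton_prod_singleton]
        rw [← hdiag, Subtype.val_inj]
      rw [this]
      exact (hiso.prod (hiso.prod hiso)).preimage continuous_subtype_val
    refine ⟨eY (y₁, y₁), interior_maximal ?_ hO rfl⟩
    rw [singleton_subset_iff]
    exact hcl ⟨(y₁, y₁), ⟨interior_subset hy₁, interior_subset hy₂⟩, rfl⟩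

theorem isSkeletalMap_tmap {X Y : Type u} [TopologicalSpace X] [TopologicalSpace Y] [T2Space Y]
    {f : X → Y} (hf : Continuous f) (hs : IsSkeletalMap f) : IsSkeletalMap (tmap f) := by
  refine (isSkeletalMap_iff (continuous_tmap hf)).2 fun U hU hne => ?_
  obtain ⟨⟨⟨x, y, z⟩, h⟩, hp⟩ := hne
  dsimp only at h
  rcases h with h | h
  · subst h
    refine key hf hs (fun q => ⟨(q.1, q.1, q.2), Or.inl rfl⟩)
      (fun q => ⟨(q.1, q.1, q.2), Or.inl rfl⟩) (Continuous.subtype_mk (by fun_prop) _)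
      (Continuous.subtype_mk (by fun_prop) _) (fun _ _ => rfl) ?_ (fun _ => rfl) U hU x z hp
    intro V W hV hW hd
    have : (fun q : Y × Y => (⟨(q.1, q.1, q.2), Or.inl rfl⟩ : T Y)) '' V ×ˢ W =
        Subtype.val ⁻¹' (V ×ˢ (univ : Set Y) ×ˢ W) := by
      ext ⟨⟨a, b, c⟩, h⟩
      constructor
      · rintro ⟨⟨a', c'⟩, ⟨ha, hc⟩, he⟩
        obtain ⟨rfl, rfl, rfl⟩ : a' = a ∧ a' = b ∧ c' = c := by simpa using he
        exact ⟨ha, mem_univ _, hc⟩
      · rintro ⟨ha, -, hc⟩
        dsimp only at h ha hc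
        rcases h with h | h
        · subst h
          exact ⟨(a, c), ⟨ha, hc⟩, rfl⟩
        · subst h
          exact absurd hc (disjoint_left.1 hd ha)
    rw [this]
    exact (hV.prod (isOpen_univ.prod hW)).preimage continuous_subtype_val
  · subst h
    refine key hf hs (fun q => ⟨(q.1, q.2, q.1), Or.inr rfl⟩)
      (fun q => ⟨(q.1, q.2, q.1), Or.inr rfl⟩) (Continuous.subtype_mk (by fun_prop) _)
      (Continuous.subtype_mk (by fun_prop) _) (fun _ _ => rfl) ?_ (fun _ => rfl) U hU x y hp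
    intro V W hV hW hd
    have : (fun q : Y × Y => (⟨(q.1, q.2, q.1), Or.inr rfl⟩ : T Y)) '' V ×ˢ W =
        Subtype.val ⁻¹' (V ×ˢ W ×ˢ (univ : Set Y)) := by
      ext ⟨⟨a, b, c⟩, h⟩
      constructor
      · rintro ⟨⟨a', c'⟩, ⟨ha, hc⟩, he⟩
        obtain ⟨rfl, rfl, rfl⟩ : a' = a ∧ c' = b ∧ a' = c := by simpa using he
        exact ⟨ha, hc, mem_univ _⟩
      · rintro ⟨ha, hb, -⟩
        dsimp only at h ha hb
        rcases h with h | h
        · subst h
          exact absurd hb (disjoint_left.1 hd ha)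
        · subst h
          exact ⟨(a, b), ⟨ha, hb⟩, rfl⟩
    rw [this]
    exact (hV.prod (hW.prod isOpen_univ)).preimage continuous_subtype_val

theorem not_isOpenFunctor_G : ¬ IsOpenFunctor G.{u} := by
  intro h
  let Y : Type u := OnePoint (ULift.{u} ℕ)
  let X : Type u := Y × ULift.{u} Bool
  let f : CompHaus.of X ⟶ CompHaus.of Y := CompHausLike.ofHom _ ⟨Prod.fst, continuous_fst⟩
  have ho : IsOpenMap (tmap (Prod.fst : X → Y)) :=
    h _ _ f isOpenMap_fst Prod.fst_surjective
  let U : Set (T X) := (fun p : T X => (p.1.1.2, p.1.2.2.2)) ⁻¹' {(⟨false⟩, ⟨true⟩)}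
  have hU : IsOpen U := (isOpen_discrete _).preimage
    ((continuous_snd.comp (continuous_fst.comp continuous_subtype_val)).prodMk
      (continuous_snd.comp (continuous_snd.comp (continuous_snd.comp continuous_subtype_val))))
  let g : Y → T Y := fun t => ⟨(OnePoint.infty, t, OnePoint.infty), Or.inr rfl⟩
  have hg : Continuous g := Continuous.subtype_mk (by fun_prop) _
  have h1 : g ⁻¹' (tmap Prod.fst '' U) = {OnePoint.infty} := by
    ext t
    constructor
    · rintro ⟨⟨⟨a, b, c⟩, hh⟩, hm, he⟩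
      have hm' : a.2 = ⟨false⟩ ∧ c.2 = ⟨true⟩ := by simpa [U] using hm
      have he' : a.1 = OnePoint.infty ∧ b.1 = t ∧ c.1 = OnePoint.infty := by
        simpa [tmap, g] using he
      dsimp only at hh
      rcases hh with hh | hh
      · subst hh
        exact he'.2.1.symm.trans he'.1
      · subst hh
        exact absurd (hm'.1.symm.trans hm'.2) (by decide)
    · rintro rfl
      exact ⟨⟨((OnePoint.infty, ⟨false⟩), (OnePoint.infty, ⟨false⟩), (OnePoint.infty, ⟨true⟩)),
        Or.inl rfl⟩, rfl, rfl⟩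
  have h2 : IsOpen ({OnePoint.infty} : Set Y) := h1 ▸ (ho U hU).preimage hg
  have h3 := (OnePoint.isOpen_iff_of_mem (s := ({OnePoint.infty} : Set Y)) rfl).1 h2
  have h4 : (((↑) : ULift.{u} ℕ → Y) ⁻¹' ({OnePoint.infty} : Set Y))ᶜ = univ := by
    ext n
    simp
  rw [h4] at h3
  exact infinite_univ (isCompact_iff_finite.1 h3.2)

theorem not_isFinitelyBicommutative_G : ¬ IsFinitelyBicommutative G.{u} := by
  intro h
  let B : Type u := ULift.{u} Bool
  let g : CompHaus.of (B × B) ⟶ CompHaus.of B := CompHausLike.ofHom _ ⟨Prod.snd, continuous_snd⟩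
  let pX : CompHaus.of (B × B) ⟶ CompHaus.of B := CompHausLike.ofHom _ ⟨Prod.fst, continuous_fst⟩
  let f : CompHaus.of B ⟶ CompHaus.of PUnit.{u + 1} :=
    CompHausLike.ofHom _ ⟨fun _ => PUnit.unit, continuous_const⟩
  have hf : Function.Surjective f := fun _ => ⟨⟨true⟩, rfl⟩
  have hb : IsBicommutative g pX f f := by
    refine ⟨rfl, fun x => ?_⟩
    ext y
    exact ⟨fun _ => rfl, fun _ => ⟨(x, y), rfl, rfl⟩⟩
  have h1 := (h _ _ _ _ g pX f f inferInstance inferInstance inferInstance inferInstance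
    Prod.snd_surjective Prod.fst_surjective hf hf hb).2
    (⟨(⟨false⟩, ⟨false⟩, ⟨true⟩), Or.inl rfl⟩ : T B)
  have h2 : (⟨(⟨false⟩, ⟨true⟩, ⟨false⟩), Or.inr rfl⟩ : T B) ∈ G.map g '' (G.map pX ⁻¹'
      {(⟨(⟨false⟩, ⟨false⟩, ⟨true⟩), Or.inl rfl⟩ : T B)}) :=
    h1.symm.subset rfl
  obtain ⟨⟨⟨a, b, c⟩, hh⟩, hm, he⟩ := h2
  have hm' : (a.1, b.1, c.1) = ((⟨false⟩, ⟨false⟩, ⟨true⟩) : B × B × B) :=
    congrArg Subtype.val hm
  have he' : (a.2, b.2, c.2) = ((⟨false⟩, ⟨true⟩, ⟨false⟩) : B × B × B) :=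
    congrArg Subtype.val he
  simp only [Prod.mk.injEq] at hm' he'
  dsimp only at hh
  rcases hh with hh | hh
  · subst hh
    exact absurd (he'.1.symm.trans he'.2.1) (by decide)
  · subst hh
    exact absurd (hm'.1.symm.trans hm'.2.2) (by decide)

end Pool.Agent.P.MP_92e33a_gt
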